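import Pool.Agent.Helper20.RG.St1
import Pool.Agent.Helper20.RG.St3

/-! Project RG (MP_cb927e_an), module COV. -/

set_option autoImplicit false

open MeasureTheory Set Filter Topology
open scoped ENNReal RealInnerProductSpace

namespace Pool.Agent.Helper41.RG

open Pool.Agent.Helper20.RG
open Pool.Agent.Helper68.LM (Pl)

/-- the set `S` is covered, up to a null set, by finitely many pieces of `Ω` -/
def GoodC (Ω S : Set Pl) : Prop :=
  ∃ (n : ℕ) (P u v : ℕ → Pl) (ℓ : ℕ → ℝ) (φ τ : ℕ → ℝ → ℝ),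
      (∀ i < n, Piece Ω (P i) (u i) (v i) (ℓ i) (φ i) (τ i)) ∧
      (μH[1] : Measure Pl) (S \
        ⋃ i ∈ {i : ℕ | i < n}, (fun t => P i + t • u i + φ i t • v i) '' Icc 0 (ℓ i)) = 0

theorem good_null {Ω S : Set Pl} (h : (μH[1] : Measure Pl) S = 0) : GoodC Ω S := by
  refine ⟨0, fun _ => 0, fun _ => 0, fun _ => 0, fun _ => 0, fun _ _ => 0, fun _ _ => 0,
    fun i hi => absurd hi (Nat.not_lt_zero _), ?_⟩
  exact measure_mono_null diff_subset h

theorem good_one {Ω S : Set Pl} {P u v : Pl} {ℓ : ℝ} {φ τ : ℝ → ℝ} (hP : Piece Ω P u v ℓ φ τ)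
    (h : (μH[1] : Measure Pl) (S \ ((fun t => P + t • u + φ t • v) '' Icc 0 ℓ)) = 0) :
    GoodC Ω S := by
  refine ⟨1, fun _ => P, fun _ => u, fun _ => v, fun _ => ℓ, fun _ => φ, fun _ => τ,
    fun i _ => hP, ?_⟩
  refine measure_mono_null ?_ h
  intro x hx
  refine ⟨hx.1, fun hx2 => hx.2 ?_⟩
  rw [mem_iUnion₂]
  exact ⟨0, Nat.zero_lt_one, hx2⟩

theorem good_mono {Ω S S' : Set Pl} (hS : S ⊆ S') (h : GoodC Ω S') : GoodC Ω S := by
  obtain ⟨n, P, u, v, ℓ, φ, τ, h1, h2⟩ := h
  exact ⟨n, P, u, v, ℓ, φ, τ, h1, measure_mono_null (diff_subset_diff_left hS) h2⟩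

theorem good_union {Ω S S' : Set Pl} (h : GoodC Ω S) (h' : GoodC Ω S') : GoodC Ω (S ∪ S') := by
  obtain ⟨n, P, u, v, ℓ, φ, τ, h1, h2⟩ := h
  obtain ⟨n', P', u', v', ℓ', φ', τ', h1', h2'⟩ := h'
  refine ⟨n + n', fun i => if i < n then P i else P' (i - n),
    fun i => if i < n then u i else u' (i - n), fun i => if i < n then v i else v' (i - n),
    fun i => if i < n then ℓ i else ℓ' (i - n), fun i => if i < n then φ i else φ' (i - n),
    fun i => if i < n then τ i else τ' (i - n), ?_, ?_⟩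
  · intro i hi
    by_cases hin : i < n
    · simp only [if_pos hin]
      exact h1 i hin
    · simp only [if_neg hin]
      exact h1' (i - n) (by omega)
  · refine measure_mono_null ?_ (measure_union_null h2 h2')
    intro x hx
    obtain ⟨hx1, hx2⟩ := hx
    rcases hx1 with hx1 | hx1
    · left
      refine ⟨hx1, fun hx3 => hx2 ?_⟩
      rw [mem_iUnion₂] at hx3 ⊢
      obtain ⟨i, hi, hx4⟩ := hx3
      refine ⟨i, ?_, ?_⟩
      · have hi' : i < n := hi
        show i < n + n'
        omega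
      · have hi' : i < n := hi
        simp only [if_pos hi']
        exact hx4
    · right
      refine ⟨hx1, fun hx3 => hx2 ?_⟩
      rw [mem_iUnion₂] at hx3 ⊢
      obtain ⟨i, hi, hx4⟩ := hx3
      refine ⟨n + i, ?_, ?_⟩
      · have hi' : i < n' := hi
        show n + i < n + n'
        omega
      · have hi' : ¬ n + i < n := by omega
        have hi2 : n + i - n = i := by omega
        simp only [if_neg hi', hi2]
        exact hx4

theorem hCOV (hPT : StPT) (hFRM : StFRM) : StCOV := by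
  obtain ⟨hpt, hptx, hnm, hin, -⟩ := hPT
  intro Ω hO hC hB hne
  show GoodC Ω (frontier Ω)
  -- the set belonging to a frame
  have hframe : ∀ u v : Pl, ‖u‖ = 1 → ‖v‖ = 1 → ⟪u, v⟫ = 0 →
      GoodC Ω {y | y ∈ frontier Ω ∧ ∃ τ : ℝ, |τ| ≤ 1 ∧ ∀ z ∈ Ω, 0 ≤ ⟪z - y, v - τ • u⟫} := by
    intro u v hu hv huv
    rcases hFRM Ω u v hO hC hB hne hu hv huv with h | ⟨P, ℓ, φ, τ, hP, h⟩
    · exact good_null h
    · exact good_one hP h
  have hnorm : ∀ a b : ℝ, a ^ 2 + b ^ 2 = 1 → ‖pt a b‖ = 1 := by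
    intro a b hab
    have h1 := (hnm (pt a b)).2.2.2
    rw [(hpt a b).1, (hpt a b).2, hab] at h1
    have h2 : (‖pt a b‖ - 1) * (‖pt a b‖ + 1) = 0 := by linear_combination h1
    rcases mul_eq_zero.1 h2 with h3 | h3
    · linarith
    · linarith [norm_nonneg (pt a b)]
  have hip : ∀ a b c d : ℝ, ⟪pt a b, pt c d⟫ = a * c + b * d := by
    intro a b c d
    rw [hin, (hpt a b).1, (hpt a b).2, (hpt c d).1, (hpt c d).2]
  have f0 := hframe (pt 1 0) (pt 0 1) (hnorm _ _ (by norm_num)) (hnorm _ _ (by norm_num))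
    (by rw [hip]; norm_num)
  have f1 := hframe (pt 1 0) (pt 0 (-1)) (hnorm _ _ (by norm_num)) (hnorm _ _ (by norm_num))
    (by rw [hip]; norm_num)
  have f2 := hframe (pt 0 1) (pt 1 0) (hnorm _ _ (by norm_num)) (hnorm _ _ (by norm_num))
    (by rw [hip]; norm_num)
  have f3 := hframe (pt 0 1) (pt (-1) 0) (hnorm _ _ (by norm_num)) (hnorm _ _ (by norm_num))
    (by rw [hip]; norm_num)
  refine good_mono ?_ (good_union (good_union f0 f1) (good_union f2 f3))
  intro y hy
  -- supporting vector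
  have hyΩ : y ∉ Ω := by
    intro h
    have h2 : y ∈ Ω ∩ frontier Ω := ⟨h, hy⟩
    rw [hO.inter_frontier_eq] at h2
    exact h2
  obtain ⟨f, hf⟩ := geometric_hahn_banach_open_point hC hO hyΩ
  obtain ⟨n, hn⟩ : ∃ n : Pl, ∀ z, ⟪z, n⟫ = - f z := by
    refine ⟨-(InnerProductSpace.toDual ℝ Pl).symm f, fun z => ?_⟩
    rw [inner_neg_right, real_inner_comm, InnerProductSpace.toDual_symm_apply]
  have hs : ∀ z ∈ Ω, 0 < (z 0 - y 0) * n 0 + (z 1 - y 1) * n 1 := by
    intro z hz
    have h1 : ⟪z - y, n⟫ = - f z + f y := by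
      rw [inner_sub_left, hn, hn]; ring
    have h2 := hf z hz
    rw [hin] at h1
    simp only [PiLp.sub_apply] at h1
    rw [h1]
    linarith
  have hval : ∀ (z a : Pl) , ⟪z - y, a⟫ = (z 0 - y 0) * a 0 + (z 1 - y 1) * a 1 := by
    intro z a
    rw [hin]
    simp only [PiLp.sub_apply]
  have hsub0 : ∀ (a b c d τ : ℝ), (pt a b - τ • pt c d) 0 = a - τ * c := by
    intro a b c d τ
    simp only [PiLp.sub_apply, PiLp.smul_apply, smul_eq_mul, (hpt a b).1, (hpt c d).1]
  have hsub1 : ∀ (a b c d τ : ℝ), (pt a b - τ • pt c d) 1 = b - τ * d := by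
    intro a b c d τ
    simp only [PiLp.sub_apply, PiLp.smul_apply, smul_eq_mul, (hpt a b).2, (hpt c d).2]
  obtain ⟨z0, hz0⟩ := hne
  have hz1 := hs z0 hz0
  rcases le_total |n 0| |n 1| with h | h
  · have hn1 : n 1 ≠ 0 := by
      intro h1
      rw [h1, abs_zero] at h
      have h2 : n 0 = 0 := abs_eq_zero.1 (le_antisymm h (abs_nonneg _))
      rw [h1, h2] at hz1
      simp at hz1
    have hp : 0 < |n 1| := abs_pos.2 hn1
    left
    rcases lt_or_gt_of_ne hn1 with h1 | h1
    · right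
      refine ⟨hy, -(n 0 / |n 1|), ?_, fun z hz => ?_⟩
      · rw [abs_neg, abs_div, abs_abs, div_le_one hp]
        exact h
      · rw [hval, hsub0, hsub1]
        have h2 := hs z hz
        have e : (z 0 - y 0) * (0 - -(n 0 / |n 1|) * 1) + (z 1 - y 1) * (-1 - -(n 0 / |n 1|) * 0) =
            ((z 0 - y 0) * n 0 + (z 1 - y 1) * n 1) / |n 1| := by
          rw [abs_of_neg h1]
          field_simp
          ring
        rw [e]
        positivity
    · left
      refine ⟨hy, -(n 0 / |n 1|), ?_, fun z hz => ?_⟩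
      · rw [abs_neg, abs_div, abs_abs, div_le_one hp]
        exact h
      · rw [hval, hsub0, hsub1]
        have h2 := hs z hz
        have e : (z 0 - y 0) * (0 - -(n 0 / |n 1|) * 1) + (z 1 - y 1) * (1 - -(n 0 / |n 1|) * 0) =
            ((z 0 - y 0) * n 0 + (z 1 - y 1) * n 1) / |n 1| := by
          rw [abs_of_pos h1]
          field_simp
          ring
        rw [e]
        positivity
  · have hn1 : n 0 ≠ 0 := by
      intro h1
      rw [h1, abs_zero] at h
      have h2 : n 1 = 0 := abs_eq_zero.1 (le_antisymm h (abs_nonneg _))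
      rw [h1, h2] at hz1
      simp at hz1
    have hp : 0 < |n 0| := abs_pos.2 hn1
    right
    rcases lt_or_gt_of_ne hn1 with h1 | h1
    · right
      refine ⟨hy, -(n 1 / |n 0|), ?_, fun z hz => ?_⟩
      · rw [abs_neg, abs_div, abs_abs, div_le_one hp]
        exact h
      · rw [hval, hsub0, hsub1]
        have h2 := hs z hz
        have e : (z 0 - y 0) * (-1 - -(n 1 / |n 0|) * 0) + (z 1 - y 1) * (0 - -(n 1 / |n 0|) * 1) =
            ((z 0 - y 0) * n 0 + (z 1 - y 1) * n 1) / |n 0| := by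
          rw [abs_of_neg h1]
          field_simp
          ring
        rw [e]
        positivity
    · left
      refine ⟨hy, -(n 1 / |n 0|), ?_, fun z hz => ?_⟩
      · rw [abs_neg, abs_div, abs_abs, div_le_one hp]
        exact h
      · rw [hval, hsub0, hsub1]
        have h2 := hs z hz
        have e : (z 0 - y 0) * (1 - -(n 1 / |n 0|) * 0) + (z 1 - y 1) * (0 - -(n 1 / |n 0|) * 1) =
            ((z 0 - y 0) * n 0 + (z 1 - y 1) * n 1) / |n 0| := by
          rw [abs_of_pos h1]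
          field_simp
          ring
        rw [e]
        positivity

end Pool.Agent.Helper41.RG
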